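import Pool.Agent.TH280.DH.Stm

/-! Burkholder's argument. -/

set_option autoImplicit false

namespace Pool.Agent.TH473.DH.Burk

open Filter Topology

/-- the factor in front of the old value -/
noncomputable def fac (p t : ℝ) : ℝ :=
  (1 + 2 * t) ^ p * (1 - p * (t / (1 + 2 * t))) + (1 - p * t)

theorem fac_zero (p : ℝ) : fac p 0 = 2 := by
  unfold fac
  norm_num

theorem fac_deriv (p : ℝ) : HasDerivAt (fac p) 0 0 := by
  have h1 : HasDerivAt (fun t : ℝ => 1 + 2 * t) 2 0 := by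
    have := ((hasDerivAt_id (0 : ℝ)).const_mul 2).const_add 1
    simpa using this
  have h2 : HasDerivAt (fun t : ℝ => (1 + 2 * t) ^ p) (2 * p) 0 := by
    have := h1.rpow_const (p := p) (Or.inl (by norm_num))
    simpa using this
  have h3 : HasDerivAt (fun t : ℝ => t / (1 + 2 * t)) 1 0 := by
    have := (hasDerivAt_id' (0 : ℝ)).fun_div h1 (by norm_num)
    simpa using this
  have h4 : HasDerivAt (fun t : ℝ => 1 - p * (t / (1 + 2 * t))) (-p) 0 := by
    have := (h3.const_mul p).const_sub 1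
    simpa using this
  have h5 : HasDerivAt (fun t : ℝ => 1 - p * t) (-p) 0 := by
    have := ((hasDerivAt_id (0 : ℝ)).const_mul p).const_sub 1
    simpa using this
  have h6 := (h2.mul h4).add h5
  have e : 2 * p * (1 - p * ((0 : ℝ) / (1 + 2 * 0))) + (1 + 2 * (0 : ℝ)) ^ p * -p + -p = 0 := by
    norm_num
    ring
  rw [e] at h6
  exact h6

theorem fac_bound (p : ℝ) (hp : 1 < p) {δ : ℝ} (hδ : 0 < δ) :
    ∃ t : ℝ, 0 < t ∧ p * t < 1 ∧ |fac p t - 2| ≤ δ * t := by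
  have h1 := (hasDerivAt_iff_isLittleO.1 (fac_deriv p))
  have h2 := Asymptotics.isLittleO_iff.1 h1 hδ
  have h3 : ∀ᶠ t : ℝ in 𝓝[>] 0, |fac p t - 2| ≤ δ * t := by
    have h4 := h2.filter_mono (nhdsWithin_le_nhds (s := Set.Ioi (0 : ℝ)))
    filter_upwards [h4, self_mem_nhdsWithin] with t ht ht0
    have ht0' : (0 : ℝ) < t := ht0
    simpa [fac_zero, abs_of_pos ht0'] using ht
  have h5 : ∀ᶠ t : ℝ in 𝓝[>] 0, t < 1 / p :=
    (eventually_lt_nhds (by positivity)).filter_mono nhdsWithin_le_nhds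
  obtain ⟨t, ⟨ht1, ht2⟩, ht3⟩ := ((h3.and h5).and self_mem_nhdsWithin).exists
  refine ⟨t, ht3, ?_, ht1⟩
  rw [lt_div_iff₀ (by linarith)] at ht2
  linarith

theorem step (p : ℝ) (hp : 1 < p) (Gd : ℝ → ℝ → ℝ → ℝ → Prop)
    (hc : ∀ x y : ℝ, Gd x y (|x| ^ p) (|y| ^ p))
    (hf : ∀ x y A B : ℝ, Gd x y A B → Gd x (-y) A B)
    (hg : ∀ x₁ y₁ A₁ B₁ x₂ y₂ A₂ B₂ l : ℝ, 0 < l → l < 1 → y₁ - y₂ = x₁ - x₂ →
      Gd x₁ y₁ A₁ B₁ → Gd x₂ y₂ A₂ B₂ →
      Gd (l * x₁ + (1 - l) * x₂) (l * y₁ + (1 - l) * y₂)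
        (l * A₁ + (1 - l) * A₂) (l * B₁ + (1 - l) * B₂))
    {A B : ℝ} (h : Gd 0 1 A B) {t : ℝ} (ht : 0 < t) (hpt : p * t < 1) :
    Gd t (-(1 - t)) ((1 - p * t) * A + p * t * (1 / p) ^ p)
      ((1 - p * t) * B + p * t * (1 - 1 / p) ^ p) := by
  have hp0 : 0 < p := by linarith
  have h1 := hf _ _ _ _ (hc (1 / p) (1 - 1 / p))
  have h2 := hf _ _ _ _ h
  have hpp : 0 < 1 / p := by positivity
  have hpp1 : 1 / p < 1 := by rw [div_lt_one hp0]; exact hp
  have h3 := hg _ _ _ _ _ _ _ _ (1 - p * t) (by linarith) (by nlinarith) (by ring) h2 h1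
  rw [abs_of_pos hpp, abs_of_pos (by linarith : (0 : ℝ) < 1 - 1 / p)] at h3
  convert h3 using 1
  · field_simp
    ring
  · field_simp
    ring
  · ring
  · ring

theorem key (p : ℝ) (hp : 1 < p) (Gd : ℝ → ℝ → ℝ → ℝ → Prop)
    (hc : ∀ x y : ℝ, Gd x y (|x| ^ p) (|y| ^ p))
    (hs : ∀ t x y A B : ℝ, Gd x y A B → Gd (t * x) (t * y) (|t| ^ p * A) (|t| ^ p * B))
    (hf : ∀ x y A B : ℝ, Gd x y A B → Gd x (-y) A B)
    (hg : ∀ x₁ y₁ A₁ B₁ x₂ y₂ A₂ B₂ l : ℝ, 0 < l → l < 1 → y₁ - y₂ = x₁ - x₂ →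
      Gd x₁ y₁ A₁ B₁ → Gd x₂ y₂ A₂ B₂ →
      Gd (l * x₁ + (1 - l) * x₂) (l * y₁ + (1 - l) * y₂)
        (l * A₁ + (1 - l) * A₂) (l * B₁ + (1 - l) * B₂))
    (α β M : ℝ) (hV : 0 < α * (1 / p) ^ p + β * (1 - 1 / p) ^ p)
    (hM : ∀ A B, Gd 0 1 A B → α * A + β * B ≤ M) : False := by
  have hp0 : 0 < p := by linarith
  obtain ⟨V, hVd⟩ : ∃ V, V = α * (1 / p) ^ p + β * (1 - 1 / p) ^ p := ⟨_, rfl⟩
  rw [← hVd] at hV
  obtain ⟨K, hK⟩ : ∃ K, K = |M| + |β| + 1 := ⟨_, rfl⟩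
  have hK0 : 0 < K := by rw [hK]; positivity
  obtain ⟨t, ht, hpt, hft⟩ := fac_bound p hp (δ := p * V / (2 * K)) (by positivity)
  -- one step
  have hstep : ∀ A B, Gd 0 1 A B → β ≤ α * A + β * B →
      ∃ A' B', Gd 0 1 A' B' ∧ α * A + β * B + p * t * V / 4 ≤ α * A' + β * B' := by
    intro A B h hv
    have hu := hM A B h
    have h2t : 0 < 1 + 2 * t := by linarith
    obtain ⟨t', ht'⟩ : ∃ t', t' = t / (1 + 2 * t) := ⟨_, rfl⟩
    have ht'0 : 0 < t' := by rw [ht']; positivity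
    have ht't : t' ≤ t := by
      rw [ht', div_le_iff₀ h2t]
      nlinarith
    have ht'e : (1 + 2 * t) * t' = t := by
      rw [ht']
      field_simp
    have hP := step p hp Gd hc hf hg h ht hpt
    have hP' := step p hp Gd hc hf hg h ht'0
      (lt_of_le_of_lt (mul_le_mul_of_nonneg_left ht't hp0.le) hpt)
    have h3 := hs (1 + 2 * t) _ _ _ _ (hf _ _ _ _ hP')
    have h4 := hs (-1) _ _ _ _ hP
    have h5 := hg _ _ _ _ _ _ _ _ (1 / 2) (by norm_num) (by norm_num)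
      (by linear_combination (-2 : ℝ) * ht'e) h3 h4
    have e1 : 1 / 2 * ((1 + 2 * t) * t') + (1 - 1 / 2) * (-1 * t) = 0 := by
      linear_combination (1 / 2 : ℝ) * ht'e
    have e2 : 1 / 2 * ((1 + 2 * t) * -(-(1 - t'))) + (1 - 1 / 2) * (-1 * -(1 - t)) = 1 := by
      linear_combination (-1 / 2 : ℝ) * ht'e
    rw [e1, e2] at h5
    refine ⟨_, _, h5, ?_⟩
    rw [abs_of_pos h2t, abs_neg, abs_one, Real.one_rpow]
    obtain ⟨R, hR⟩ : ∃ R, R = (1 + 2 * t) ^ p := ⟨_, rfl⟩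
    have hR0 : 0 < R := by rw [hR]; positivity
    obtain ⟨v, hvd⟩ : ∃ v, v = α * A + β * B := ⟨_, rfl⟩
    have hfac : fac p t = R * (1 - p * t') + (1 - p * t) := by
      unfold fac
      rw [hR, ht']
    have e3 : α * (1 / 2 * (R * ((1 - p * t') * A + p * t' * (1 / p) ^ p)) +
        (1 - 1 / 2) * (1 * ((1 - p * t) * A + p * t * (1 / p) ^ p))) +
        β * (1 / 2 * (R * ((1 - p * t') * B + p * t' * (1 - 1 / p) ^ p)) +
        (1 - 1 / 2) * (1 * ((1 - p * t) * B + p * t * (1 - 1 / p) ^ p))) =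
        1 / 2 * (fac p t * v + R * (p * t') * V + p * t * V) := by
      rw [hfac, hvd, hVd]
      ring
    rw [← hR, e3, ← hvd]
    have hvK : |v| ≤ K := by
      rw [abs_le]
      rw [← hvd] at hu hv
      have := le_abs_self M
      have := neg_abs_le β
      have := abs_nonneg M
      have := abs_nonneg β
      constructor <;> linarith
    have h6 : -(p * V / (2 * K) * t * K) ≤ (fac p t - 2) * v := by
      have h7 : |(fac p t - 2) * v| ≤ p * V / (2 * K) * t * K := by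
        rw [abs_mul]
        exact mul_le_mul hft hvK (abs_nonneg _) (by positivity)
      exact (abs_le.1 h7).1
    have h8 : p * V / (2 * K) * t * K = p * t * V / 2 := by
      field_simp
    rw [h8] at h6
    have h9 : 0 ≤ R * (p * t') * V := by positivity
    linarith
  -- the supremum
  obtain ⟨S, hS⟩ : ∃ S : Set ℝ, S = {v | ∃ A B, Gd 0 1 A B ∧ v = α * A + β * B} := ⟨_, rfl⟩
  have hβ : β ∈ S := by
    rw [hS]
    refine ⟨_, _, hc 0 1, ?_⟩
    rw [abs_zero, abs_one, Real.one_rpow, Real.zero_rpow hp0.ne']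
    ring
  have hbdd : BddAbove S := by
    refine ⟨M, ?_⟩
    rw [hS]
    rintro v ⟨A, B, h, rfl⟩
    exact hM A B h
  have hd : 0 < p * t * V / 4 := by positivity
  obtain ⟨v, hv, hv1⟩ := exists_lt_of_lt_csSup ⟨β, hβ⟩ (sub_lt_self (sSup S) hd)
  have hmax : ∃ w ∈ S, sSup S - p * t * V / 4 < w ∧ β ≤ w := by
    rcases le_total β v with h | h
    · exact ⟨v, hv, hv1, h⟩
    · exact ⟨β, hβ, lt_of_lt_of_le hv1 h, le_rfl⟩
  obtain ⟨w, hw, hw1, hw2⟩ := hmax
  have hw' := hw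
  rw [hS] at hw'
  obtain ⟨A, B, h, rfl⟩ := hw'
  obtain ⟨A', B', h', h''⟩ := hstep A B h hw2
  have h10 : α * A' + β * B' ∈ S := by
    rw [hS]
    exact ⟨A', B', h', rfl⟩
  have := le_csSup hbdd h10
  linarith

end Pool.Agent.TH473.DH.Burk

namespace Pool.Agent.TH473.DH.Burk

open Pool.Agent.TH280.DH

theorem main : S_BURK := by
  intro p c Gd hp hc0 hcp hc hs hf hg
  by_contra H
  push Not at H
  have hp0 : 0 < p := by linarith
  have hp1 : 0 < p - 1 := by linarith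
  have hpp : 0 < 1 / p := by positivity
  have hpp1 : 1 / p < 1 := by rw [div_lt_one hp0]; exact hp
  have hcase : c < p - 1 ∨ c < p / (p - 1) - 1 := by
    rcases lt_max_iff.1 (lt_sub_iff_add_lt.1 hcp) with h | h
    · left; linarith
    · right; linarith
  rcases hcase with h | h
  · refine key p hp Gd hc hs hf hg (-c ^ p) 1 (c ^ p) ?_ ?_
    · have h1 : c ^ p * (1 / p) ^ p < (1 - 1 / p) ^ p := by
        rw [← Real.mul_rpow hc0 hpp.le]
        apply Real.rpow_lt_rpow (by positivity) _ hp0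
        have e : 1 - 1 / p = (p - 1) * (1 / p) := by field_simp
        rw [e]
        exact mul_lt_mul_of_pos_right h hpp
      linarith
    · intro A B hAB
      have h1 := hf _ _ _ _ hAB
      have h2 := hc 1 0
      rw [abs_zero, abs_one, Real.one_rpow, Real.zero_rpow hp0.ne'] at h2
      have h3 := hg _ _ _ _ _ _ _ _ (1 / 2) (by norm_num) (by norm_num) (by norm_num) h1 h2
      have h4 := H _ _ _ _ h3 (by norm_num [abs_le])
      linarith
  · refine key p hp (fun x y A B => Gd y x B A) (fun x y => hc y x)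
      (fun t x y A B h => hs t y x B A h) ?_ ?_ 1 (-c ^ p) 0 ?_ ?_
    · intro x y A B h1
      have h2 := hf _ _ _ _ (hs (-1) _ _ _ _ h1)
      rw [abs_neg, abs_one, Real.one_rpow] at h2
      simpa using h2
    · intro x₁ y₁ A₁ B₁ x₂ y₂ A₂ B₂ l h0 h1 hd h2 h3
      exact hg _ _ _ _ _ _ _ _ l h0 h1 hd.symm h2 h3
    · have h1 : c ^ p * (1 - 1 / p) ^ p < (1 / p) ^ p := by
        rw [← Real.mul_rpow hc0 (by linarith)]
        apply Real.rpow_lt_rpow (by apply mul_nonneg hc0; linarith) _ hp0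
        have e : 1 - 1 / p = (p - 1) * (1 / p) := by field_simp
        rw [e, ← mul_assoc]
        have e2 : c * (p - 1) < 1 := by
          have e3 : p / (p - 1) - 1 = 1 / (p - 1) := by field_simp; ring
          rw [e3, lt_div_iff₀ hp1] at h
          exact h
        calc c * (p - 1) * (1 / p) < 1 * (1 / p) := mul_lt_mul_of_pos_right e2 hpp
          _ = 1 / p := one_mul _
      linarith
    · intro A B hAB
      have h1 := H 1 0 B A hAB (by norm_num)
      linarith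

end Pool.Agent.TH473.DH.Burk
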